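import Pool.Agent.V1131.BD.Eight
import Pool.Agent.V1131.BD.EightB
import Pool.Agent.V1131.BD.EightC
import Pool.Agent.V1131.BD.EightD
import Pool.Agent.V1131.BD.Nine
import Pool.Agent.V1131.BD.NineB
import Pool.Agent.V1131.BD.Seven

/-!
The Steiner systems `S(1345,8,2)`, `S(1464,8,2)`, `S(1576,8,2)`, `S(3473,8,2)`, `S(1645,7,2)`,
`S(2025,9,2)` and `S(6705,9,2)`.
-/

namespace Pool.Agent.Results.MP_409a13_co.BlockSizesMore

/-- There are Steiner systems `S(n,k,2)` for `(n,k) = (1345,8), (1464,8), (1576,8), (3473,8),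
(1645,7), (2025,9), (6705,9)`. -/
theorem result : ∀ p ∈ ([(1345, 8), (1464, 8), (1576, 8), (3473, 8), (1645, 7), (2025, 9),
      (6705, 9)] : List (ℕ × ℕ)),
    ∃ B : Finset (Finset (Fin p.1)), (∀ b ∈ B, b.card = p.2) ∧
      ∀ T : Finset (Fin p.1), T.card = 2 → ∃! b, b ∈ B ∧ T ⊆ b := by
  intro p hp
  simp only [List.mem_cons, List.not_mem_nil, or_false] at hp
  rcases hp with rfl | rfl | rfl | rfl | rfl | rfl | rfl
  · exact Pool.Agent.Y345.steiner_of_sd (by norm_num) Pool.Agent.V1131.BD.s1345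
  · exact Pool.Agent.Y345.steiner_of_sd (by norm_num) Pool.Agent.V1131.BD.s1464
  · exact Pool.Agent.Y345.steiner_of_sd (by norm_num) Pool.Agent.V1131.BD.s1576
  · exact Pool.Agent.Y345.steiner_of_sd (by norm_num) Pool.Agent.V1131.BD.s3473
  · exact Pool.Agent.Y345.steiner_of_sd (by norm_num) Pool.Agent.V1131.BD.s1645
  · exact Pool.Agent.Y345.steiner_of_sd (by norm_num) Pool.Agent.V1131.BD.s2025
  · exact Pool.Agent.Y345.steiner_of_sd (by norm_num) Pool.Agent.V1131.BD.s6705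

end Pool.Agent.Results.MP_409a13_co.BlockSizesMore
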