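import Mathlib
import Pool.Agent.V11100.VB.Block
import Pool.Agent.V11100.VB.Persp

set_option autoImplicit false

/-!
# A block with `q` Veblen points forces `q` to be a prime power

A point `p` of a Steiner system `S(n, q + 1, 2)` is called a Veblen point if Veblen's axiom holds for
all configurations with the vertex `p`: if `a`, `b` are on one block through `p` and `c`, `d` on
another one, then the block `ac` meets the block `bd`.  In a projective plane (`n = q² + q + 1`) all
points are Veblen points, whatever the plane.  We show that a system with more than `q² + q + 1`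
points in which a single block contains `q` Veblen points exists for prime powers `q` only.

Idea of the proof.  The planes through a Veblen point are projective planes of order `q`.  With one
more argument the last point of the block `l` is a Veblen point, too.  Let `p` be on `l` and let `X`,
`Y` be two other blocks through `p`, not in a plane with `l`.  The perspectivities from `X` to `l`,
composed with those from `l` to `Y`, are perspectivities from `X` to `Y`: only Veblen's axiom at the
points of `l` is needed.  Hence the permutations of `l - p` which map perspectivities from `l` to `Y`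
to such perspectivities form a sharply two-transitive group, and its degree `q` is a prime power.
-/

namespace Pool.Agent.Results.MP_409a13_co.CollinearVeblenPoints

open Finset

variable {V : Type} [DecidableEq V]

/-- `B` is a Steiner system `S(n, q, r)` on the `n`-element set `V`. -/
def IsSteiner [Fintype V] (B : Finset (Finset V)) (n q r : ℕ) : Prop :=
  Fintype.card V = n ∧ (∀ b ∈ B, b.card = q) ∧
    ∀ R : Finset V, R.card = r → ∃! b, b ∈ B ∧ R ⊆ b

/-- Veblen's axiom with the vertex `p`: let `l` and `m` be different blocks through `p`, `a` and `b`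
points of `l`, `c` and `d` points of `m`, all different from `p`. Then the block through `a` and `c`
meets the block through `b` and `d`. -/
def IsVeblen (B : Finset (Finset V)) (p : V) : Prop :=
  ∀ l ∈ B, ∀ m ∈ B, l ≠ m → p ∈ l → p ∈ m →
    ∀ a ∈ l, ∀ b ∈ l, ∀ c ∈ m, ∀ d ∈ m, a ≠ p → b ≠ p → c ≠ p → d ≠ p →
      ∀ g ∈ B, ∀ h ∈ B, a ∈ g → c ∈ g → b ∈ h → d ∈ h → ∃ w, w ∈ g ∧ w ∈ h

/-- Let `q ≥ 2` and let `B` be a Steiner system `S(n, q + 1, 2)` with `n > q ^ 2 + q + 1`. If some
block `k` contains a set `T` of at least `q` Veblen points then `q` is a prime power, and all points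
of the block are Veblen points. -/
theorem result [Fintype V] (B : Finset (Finset V)) (n q : ℕ) (hq : 2 ≤ q)
    (hB : IsSteiner B n (q + 1) 2) (hn : q ^ 2 + q + 1 < n) (k : Finset V) (hk : k ∈ B)
    (T : Finset V) (hTk : T ⊆ k) (hT : q ≤ T.card) (hV : ∀ x ∈ T, IsVeblen B x) :
    IsPrimePow q ∧ ∀ x ∈ k, IsVeblen B x := by
  have H : Pool.Agent.V11100.VB.LS B q := ⟨hB.2.1, hB.2.2, hq⟩
  have hall : ∀ x ∈ k, Pool.Agent.V11100.VB.Veblen B x := by
    intro r hr
    by_cases hrT : r ∈ T
    · exact hV r hrT
    refine H.veblen_of_block hk hr ?_
    intro x hx hxr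
    have h1 : T ⊆ k.erase r := fun y hy => mem_erase.2 ⟨fun e => hrT (e ▸ hy), hTk hy⟩
    have h2 : T = k.erase r := by
      refine eq_of_subset_of_card_le h1 ?_
      rw [card_erase_of_mem hr, H.size k hk]
      simpa using hT
    exact hV x (h2 ▸ mem_erase.2 ⟨hxr, hx⟩)
  refine ⟨H.isPrimePow hk hall ?_, hall⟩
  rw [hB.1]
  exact hn

end Pool.Agent.Results.MP_409a13_co.CollinearVeblenPoints
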