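import Mathlib
import Pool.Agent.V11100.VB.Few
import Pool.Agent.V11100.VB.Des

set_option autoImplicit false

/-!
# Steiner systems `S(n, q + 1, 2)` with few points at which Veblen's axiom fails

A point `p` of a Steiner system `S(n, q + 1, 2)` is called a Veblen point if Veblen's axiom holds for
all configurations with the vertex `p`.  By the theorem of Veblen and Young the systems all of whose
points are Veblen points are the projective geometries.  We show that it is enough that the number of
points which are not Veblen points is at most `(n - 1) / q + 2 q - 2`; for the other points Veblen's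
axiom follows, and `n = 1 + q + q ^ 2 + ... + q ^ d`.

Idea of the proof.  The planes through a Veblen point are subspaces and projective planes.  Let `r`
be on a block `k` whose other points are Veblen points, and let `a`, `b` and `c`, `d` be on two other
blocks through `r`.  Choose `r'` on `k`.  The plane of `r'`, `b`, `d` meets the block `ac` in at most
one point.  Each point `z` of `k` gives a block of this plane through that point, and if the point
were not on the block `bd` there would be one block too many.  Hence a point which is not a Veblen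
point is on blocks each of which contains another such point, and two of which consist of such
points.
-/

namespace Pool.Agent.Results.MP_409a13_co.FewNonVeblenPoints

open Finset

variable {V : Type} [DecidableEq V]

/-- `B` is a Steiner system `S(n, q, r)` on the `n`-element set `V`. -/
def IsSteiner [Fintype V] (B : Finset (Finset V)) (n q r : ℕ) : Prop :=
  Fintype.card V = n ∧ (∀ b ∈ B, b.card = q) ∧
    ∀ R : Finset V, R.card = r → ∃! b, b ∈ B ∧ R ⊆ b

/-- Veblen's axiom with the vertex `p`: let `l` and `m` be different blocks through `p`, `a` and `b`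
points of `l`, `c` and `d` points of `m`, all different from `p`. Then the block through `a` and `c`
meets the block through `b` and `d`. -/
def IsVeblen (B : Finset (Finset V)) (p : V) : Prop :=
  ∀ l ∈ B, ∀ m ∈ B, l ≠ m → p ∈ l → p ∈ m →
    ∀ a ∈ l, ∀ b ∈ l, ∀ c ∈ m, ∀ d ∈ m, a ≠ p → b ≠ p → c ≠ p → d ≠ p →
      ∀ g ∈ B, ∀ h ∈ B, a ∈ g → c ∈ g → b ∈ h → d ∈ h → ∃ w, w ∈ g ∧ w ∈ h

/-- Let `q ≥ 2`, `n ≥ 1`, and let `B` be a Steiner system `S(n, q + 1, 2)`. If all points outside `W`
are Veblen points and `W` has at most `(n - 1) / q + 2 q - 2` points, then all points are Veblen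
points and `n = 1 + q + ... + q ^ d` for some `d`. -/
theorem result [Fintype V] (B : Finset (Finset V)) (n q : ℕ) (hq : 2 ≤ q) (hn : 1 ≤ n)
    (hB : IsSteiner B n (q + 1) 2) (W : Finset V) (hV : ∀ x, x ∉ W → IsVeblen B x)
    (hW : q * W.card + 2 * q ≤ n - 1 + 2 * q ^ 2) :
    (∀ x, IsVeblen B x) ∧ ∃ d : ℕ, n = ∑ i ∈ range (d + 1), q ^ i := by
  classical
  have H : Pool.Agent.V11100.VB.LS B q := ⟨hB.2.1, hB.2.2, hq⟩
  have hall : ∀ x, Pool.Agent.V11100.VB.Veblen B x := by
    refine H.all_veblen2 (W := univ.filter fun x => ¬ Pool.Agent.V11100.VB.Veblen B x)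
      (fun x => by simp) ?_
    rw [hB.1]
    refine le_trans (Nat.add_le_add_right (Nat.mul_le_mul_left q (card_le_card ?_)) _) hW
    intro x hx
    rw [mem_filter] at hx
    by_contra hxW
    exact hx.2 (hV x hxW)
  refine ⟨hall, ?_⟩
  haveI : Nonempty V := Fintype.card_pos_iff.1 (by rw [hB.1]; exact hn)
  obtain ⟨d, hd⟩ := H.dim hall
  exact ⟨d, by rw [← hd, hB.1]⟩

end Pool.Agent.Results.MP_409a13_co.FewNonVeblenPoints
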