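import Mathlib
import Pool.Agent.V11100.AD.Desb
import Pool.Agent.V11100.AD.Steiner

set_option autoImplicit false

/-!
# Steiner systems `S(k² + k + 1, k + 1, 2)` in which most Desargues configurations close

If `k ≥ 1000` and a Steiner system `S(k² + k + 1, k + 1, 2)` (a projective plane of order `k`) has
at most `k ^ 10 / 80000` Desargues configurations that do not close, among about `k ^ 11`, then `k`
is a prime power. The centres of the configurations are not on their axes.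

Idea of the proof. Let a minor Desargues configuration (centre on the axis) be given that does not
close. It is a translation, so to speak, and each of about `k ^ 3` ways to write it as a product of two
homologies gives four Desargues configurations with centre off the axis, two of them with the
same axis and two of them with another axis, and one of the four does not close. Counting shows that
only few minor Desargues configurations do not close. For some axis and some vertex the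
permutations attached to them form a group up to small errors in the Hamming metric, and the exact
groups near to them show that `k` has only one prime divisor.
-/

namespace Pool.Agent.Results.MP_409a13_co.MostDesarguesConfigurations

open Finset

section
variable {V : Type} [DecidableEq V]

/-- `B` is a Steiner system `S(n, q, r)` on the `n`-element set `V`. -/
def IsSteiner [Fintype V] (B : Finset (Finset V)) (n q r : ℕ) : Prop :=
  Fintype.card V = n ∧ (∀ b ∈ B, b.card = q) ∧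
    ∀ R : Finset V, R.card = r → ∃! b, b ∈ B ∧ R ⊆ b

/-- The block through `p` and `q` and the block through `r` and `s` meet in a point of `a`. -/
def MeetOn (B : Finset (Finset V)) (a : Finset V) (p q r s : V) : Prop :=
  ∃ b ∈ a, ∃ g ∈ B, ∃ h ∈ B, (p ∈ g ∧ q ∈ g ∧ b ∈ g) ∧ (r ∈ h ∧ s ∈ h ∧ b ∈ h)

/-- Desargues configuration: the axis `a` is a block, the centre `c` is off the axis, and so are the
vertices of the triangles `o w v` and `x w' v'`, which are different from `c`; corresponding vertices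
are on three different blocks through `c`, `o ≠ x`, and `ow`, `xw'` meet on the axis, as well as
`ov`, `xv'`. -/
structure Desargues (B : Finset (Finset V)) (a : Finset V) (c o x w w' v v' : V) : Prop where
  axis : a ∈ B
  off : c ∉ a ∧ (o ∉ a ∧ x ∉ a) ∧ (w ∉ a ∧ w' ∉ a) ∧ (v ∉ a ∧ v' ∉ a)
  ne : (c ≠ o ∧ c ≠ x) ∧ (c ≠ w ∧ c ≠ w') ∧ (c ≠ v ∧ c ≠ v')
  ox : o ≠ x
  centre : ∃ l ∈ B, ∃ m ∈ B, ∃ k ∈ B, l ≠ m ∧ l ≠ k ∧ m ≠ k ∧
    (c ∈ l ∧ o ∈ l ∧ x ∈ l) ∧ (c ∈ m ∧ w ∈ m ∧ w' ∈ m) ∧ (c ∈ k ∧ v ∈ k ∧ v' ∈ k)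
  sides : MeetOn B a o w x w' ∧ MeetOn B a o v x v'

/-- the number of Desargues configurations -/
noncomputable def configs (B : Finset (Finset V)) : ℕ :=
  Nat.card {q : Finset V × V × (V × V) × (V × V) × (V × V) //
    Desargues B q.1 q.2.1 q.2.2.1.1 q.2.2.1.2 q.2.2.2.1.1 q.2.2.2.1.2 q.2.2.2.2.1 q.2.2.2.2.2}

/-- the number of Desargues configurations that do not close: `wv` and `w'v'` do not meet on the
axis -/
noncomputable def opens (B : Finset (Finset V)) : ℕ :=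
  Nat.card {q : Finset V × V × (V × V) × (V × V) × (V × V) //
    Desargues B q.1 q.2.1 q.2.2.1.1 q.2.2.1.2 q.2.2.2.1.1 q.2.2.2.1.2 q.2.2.2.2.1 q.2.2.2.2.2 ∧
    ¬ MeetOn B q.1 q.2.2.2.1.1 q.2.2.2.2.1 q.2.2.2.1.2 q.2.2.2.2.2}

end

section
open Pool.Agent.V11100.AD Configuration Configuration.ProjectivePlane
variable {V : Type} [DecidableEq V] [Fintype V]

theorem meetOn_iff {B : Finset (Finset V)} {a : Ln B} {p q r s : V} :
    MeetOn B a.1 p q r s ↔ MOn a p q r s := by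
  constructor
  · rintro ⟨b, hb, g, hg, h, hh, i, j⟩
    exact ⟨b, hb, ⟨g, hg⟩, ⟨h, hh⟩, i, j⟩
  · rintro ⟨b, hb, g, h, i, j⟩
    exact ⟨b, hb, g.1, g.2, h.1, h.2, i, j⟩

theorem desargues_iff {B : Finset (Finset V)} {a : Ln B} {c o x w w' v v' : V} :
    Desargues B a.1 c o x w w' v v' ↔ GD a c o x w w' v v' := by
  constructor
  · rintro ⟨_, h1, h2, h3, ⟨l, hl, m, hm, k, hk, e1, e2, e3, i⟩, s1, s2⟩
    exact ⟨h1, h2, h3, ⟨⟨l, hl⟩, ⟨m, hm⟩, ⟨k, hk⟩, fun h => e1 (congrArg Subtype.val h),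
      fun h => e2 (congrArg Subtype.val h), fun h => e3 (congrArg Subtype.val h), i⟩,
      meetOn_iff.1 s1, meetOn_iff.1 s2⟩
  · rintro ⟨h1, h2, h3, ⟨l, m, k, e1, e2, e3, i⟩, s1, s2⟩
    exact ⟨a.2, h1, h2, h3, ⟨l.1, l.2, m.1, m.2, k.1, k.2, fun h => e1 (Subtype.ext h),
      fun h => e2 (Subtype.ext h), fun h => e3 (Subtype.ext h), i⟩,
      meetOn_iff.2 s1, meetOn_iff.2 s2⟩

theorem gd_unique {P L : Type} [Membership P L] [ProjectivePlane P L] {a : L}
    {c o x w w1 w2 v v1 v2 : P} (h : GD a c o x w w1 v v1) (h' : GD a c o x w w2 v v2) :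
    w1 = w2 := by
  obtain ⟨⟨_, ⟨ho, hx⟩, _, _⟩, ⟨⟨co, cx⟩, ⟨cw, _⟩, _⟩, _, ⟨l, m, k, e1, _, _, i1, i2, _⟩, s1, _⟩ := h
  obtain ⟨_, _, _, ⟨l', m', k', _, _, _, _, i2', _⟩, s1', _⟩ := h'
  have hm : m = m' := ll cw i2.1 i2.2.1 i2'.1 i2'.2.1
  subst hm
  have ow : o ≠ w := fun e => e1 (ll co i1.1 i1.2.1 i2.1 (e ▸ i2.2.1))
  have xm : x ∉ m := fun e => e1 (ll cx i1.1 i1.2.2 i2.1 e)
  obtain ⟨b, hb, g, r, ⟨j1, j2, j3⟩, j4, j5, j6⟩ := s1
  obtain ⟨b', hb', g', r', ⟨j1', j2', j3'⟩, j4', j5', j6'⟩ := s1'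
  have hg : g = g' := ll ow j1 j2 j1' j2'
  subst hg
  have hga : g ≠ a := fun e => ho (e ▸ j1)
  have hbb : b = b' := pp hga j3 hb j3' hb'
  subst hbb
  have hxb : x ≠ b := fun e => hx (e ▸ hb)
  have hr : r = r' := ll hxb j4 j6 j4' j6'
  subst hr
  have hrm : r ≠ m := fun e => xm (e ▸ j4)
  exact pp hrm j5 i2.2.2 j5' i2'.2.2

theorem gd_swap {P L : Type} [Membership P L] {a : L} {c o x w w' v v' : P}
    (h : GD a c o x w w' v v') : GD a c o x v v' w w' := by
  obtain ⟨⟨a1, a2, a3, a4⟩, ⟨b1, b2, b3⟩, h3, ⟨l, m, k, e1, e2, e3, i1, i2, i3⟩, s1, s2⟩ := h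
  exact ⟨⟨a1, a2, a4, a3⟩, ⟨b1, b3, b2⟩, h3, ⟨l, k, m, e2, e1, e3.symm, i1, i3, i2⟩, s2, s1⟩

theorem gd_count {P L : Type} [Membership P L] [ProjectivePlane P L] [Finite P] [Finite L]
    (h : 1000 ≤ order P L) :
    Nat.card {q : L × P × (P × P) × (P × P) × (P × P) //
      GD q.1 q.2.1 q.2.2.1.1 q.2.2.1.2 q.2.2.2.1.1 q.2.2.2.1.2 q.2.2.2.2.1 q.2.2.2.2.2} ≤
    2 * order P L ^ 11 := by
  classical
  cases nonempty_fintype P
  cases nonempty_fintype L
  set n := order P L with hn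
  let T : Type := (L × P × P) × ((g : L) × ({p : P // p ∈ g} × {p : P // p ∈ g} × {p : P // p ∈ g}))
  have hT : Nat.card T = (n ^ 2 + n + 1) ^ 4 * (n + 1) ^ 3 := by
    have hc : ∀ g : L, Fintype.card ({p : P // p ∈ g} × {p : P // p ∈ g} × {p : P // p ∈ g}) =
        (n + 1) ^ 3 := by
      intro g
      simp only [Fintype.card_prod, card_on]
      ring
    rw [Nat.card_eq_fintype_card, Fintype.card_prod, Fintype.card_sigma,
      sum_congr rfl fun g _ => hc g, sum_const, card_univ, Fintype.card_prod, Fintype.card_prod,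
      card_lines P L, card_points P L, smul_eq_mul]
    ring
  have h1 : Nat.card {q : L × P × (P × P) × (P × P) × (P × P) //
      GD q.1 q.2.1 q.2.2.1.1 q.2.2.1.2 q.2.2.2.1.1 q.2.2.2.1.2 q.2.2.2.2.1 q.2.2.2.2.2} ≤
      (n ^ 2 + n + 1) ^ 4 * (n + 1) ^ 3 := by
    rw [← hT]
    have hl : ∀ q : {q : L × P × (P × P) × (P × P) × (P × P) //
      GD q.1 q.2.1 q.2.2.1.1 q.2.2.1.2 q.2.2.2.1.1 q.2.2.2.1.2 q.2.2.2.2.1 q.2.2.2.2.2},
        ∃ g : L, q.1.2.1 ∈ g ∧ q.1.2.2.1.1 ∈ g ∧ q.1.2.2.1.2 ∈ g := by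
      rintro ⟨q, hq⟩
      obtain ⟨l, m, k, _, _, _, i, _⟩ := hq.lines
      exact ⟨l, i⟩
    choose g hg using hl
    refine Nat.card_le_card_of_injective (fun q => (((q.1.1, q.1.2.2.2.1.1, q.1.2.2.2.2.1),
      ⟨g q, ⟨_, (hg q).1⟩, ⟨_, (hg q).2.1⟩, ⟨_, (hg q).2.2⟩⟩) : T)) ?_
    intro q q' hqq
    have e := congrArg (fun t : T => (t.1, t.2.2.1.1, t.2.2.2.1.1, t.2.2.2.2.1)) hqq
    obtain ⟨⟨a, c, ⟨o, x⟩, ⟨w, w1⟩, v, v1⟩, hq⟩ := q
    obtain ⟨⟨a', c', ⟨o', x'⟩, ⟨w', w2⟩, v', v2⟩, hq'⟩ := q'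
    simp only [Prod.mk.injEq] at e
    obtain ⟨⟨i1, i2, i3⟩, i4, i5, i6⟩ := e
    subst i1 i2 i3 i4 i5 i6
    have e1 : w1 = w2 := gd_unique hq hq'
    have e2 : v1 = v2 := gd_unique (gd_swap hq) (gd_swap hq')
    subst e1 e2
    rfl
  refine h1.trans ?_
  have e1 : 1000 * (n + 1) ≤ 1001 * n := by omega
  have e2 : 1000 * (n ^ 2 + n + 1) ≤ 1002 * n ^ 2 := by nlinarith
  have e3 := Nat.pow_le_pow_left e1 3
  have e4 := Nat.pow_le_pow_left e2 4
  have e5 := Nat.mul_le_mul e4 e3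
  have e6 : (1000 * (n ^ 2 + n + 1)) ^ 4 * (1000 * (n + 1)) ^ 3 =
      1000 ^ 7 * ((n ^ 2 + n + 1) ^ 4 * (n + 1) ^ 3) := by ring
  have e7 : (1002 * n ^ 2) ^ 4 * (1001 * n) ^ 3 = (1002 ^ 4 * 1001 ^ 3) * n ^ 11 := by ring
  rw [e6, e7] at e5
  have e8 : (1002 ^ 4 * 1001 ^ 3) * n ^ 11 ≤ (1000 ^ 7 * 2) * n ^ 11 :=
    Nat.mul_le_mul_right _ (by norm_num)
  have e9 : 1000 ^ 7 * ((n ^ 2 + n + 1) ^ 4 * (n + 1) ^ 3) ≤ 1000 ^ 7 * (2 * n ^ 11) := by
    calc _ ≤ (1002 ^ 4 * 1001 ^ 3) * n ^ 11 := e5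
      _ ≤ (1000 ^ 7 * 2) * n ^ 11 := e8
      _ = _ := by ring
  exact Nat.le_of_mul_le_mul_left e9 (by norm_num)

theorem configs_le {B : Finset (Finset V)} {k : ℕ} (H : SP B k) (h : 1000 ≤ k) :
    configs B ≤ 2 * k ^ 11 := by
  letI := H.plane
  have ho : order V (Ln B) = k := H.order_eq
  have h1 := gd_count (P := V) (L := Ln B) (by rw [ho]; exact h)
  rw [ho] at h1
  refine le_trans ?_ h1
  unfold configs
  refine Nat.card_le_card_of_injective (fun q => ⟨(⟨q.1.1, q.2.axis⟩, q.1.2),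
    desargues_iff.1 q.2⟩) ?_
  intro q q' hqq
  have e := congrArg Subtype.val hqq
  simp only [Prod.mk.injEq] at e
  exact Subtype.ext (Prod.ext (congrArg Subtype.val e.1) e.2)

theorem main {B : Finset (Finset V)} {k : ℕ} (H : SP B k) (h : 1000 ≤ k)
    (hF : 80000 * opens B < k ^ 10) : IsPrimePow k := by
  classical
  letI := H.plane
  cases nonempty_fintype (Ln B)
  have ho : order V (Ln B) = k := H.order_eq
  have hle : (univ.filter fun q : Tp V (Ln B) => isO q).card ≤ opens B := by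
    unfold opens
    rw [← Fintype.card_subtype, ← Nat.card_eq_fintype_card]
    refine Nat.card_le_card_of_injective (fun q => ⟨(q.1.1.1, q.1.2),
      desargues_iff.2 q.2.1, fun hc => q.2.2 (meetOn_iff.1 hc)⟩) ?_
    intro q q' hqq
    have e := congrArg Subtype.val hqq
    simp only [Prod.mk.injEq] at e
    exact Subtype.ext (Prod.ext (Subtype.ext e.1) e.2)
  rw [← ho]
  refine desargues_main (P := V) (L := Ln B) (by rw [ho]; exact h) ?_
  rw [ho]
  exact lt_of_le_of_lt (Nat.mul_le_mul_left _ hle) hF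

end

/-- Let `k ≥ 1000`, and let `B` be a Steiner system `S(k² + k + 1, k + 1, 2)`. If fewer than
`k ^ 10 / 80000` of its Desargues configurations do not close, then `k` is a prime power. In
particular this holds if the proportion of the Desargues configurations that do not close is at most
`1 / (200000 k)`. (There are at most `2 k ^ 11` Desargues configurations.) -/
theorem result {V : Type} [DecidableEq V] [Fintype V] (B : Finset (Finset V)) (k : ℕ)
    (hk : 1000 ≤ k) (hB : IsSteiner B (k ^ 2 + k + 1) (k + 1) 2) :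
    (80000 * opens B < k ^ 10 → IsPrimePow k) ∧
    (200000 * k * opens B ≤ configs B → IsPrimePow k) ∧
    configs B ≤ 2 * k ^ 11 := by
  have H : Pool.Agent.V11100.AD.SP B k := ⟨hB.2.1, hB.2.2, hB.1, by omega⟩
  refine ⟨main H hk, fun hF => main H hk ?_, configs_le H hk⟩
  have h1 := hF.trans (configs_le H hk)
  have h2 : (100000 * opens B) * (2 * k) ≤ k ^ 10 * (2 * k) := by
    calc (100000 * opens B) * (2 * k) = 200000 * k * opens B := by ring
      _ ≤ 2 * k ^ 11 := h1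
      _ = k ^ 10 * (2 * k) := by ring
  have h3 := Nat.le_of_mul_le_mul_right h2 (by omega)
  have h4 : 0 < k ^ 10 := by positivity
  omega

end Pool.Agent.Results.MP_409a13_co.MostDesarguesConfigurations
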